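import Pool.Agent.H598.CX.Main

/-!
# The Hasse principle for almost all members of a family of diagonal hypersurfaces over `F(t)`

Let `F` be a finite field with `q` elements, `K = F(t)`, and let `a_1, ..., a_s` be fixed non-zero
polynomials, `s ≥ k + 1`. For a non-zero polynomial `m` let `X_m` be the hypersurface
`a_1 x_1 ^ k + ... + a_s x_s ^ k = m x_0 ^ k` of degree `k` in the projective space of dimension
`s ≥ k + 1`. For almost all `m` the hypersurface `X_m` satisfies the Hasse principle, and for almost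
all `m` the affine equation `a_1 x_1 ^ k + ... + a_s x_s ^ k = m` satisfies the integral Hasse
principle. The places of `K` are the prime ideals `v ≠ 0` of `F[t]`, with the completions
`v.adicCompletion K`, and the place at infinity with the completion `RatFunc.CompletionAtInfty F`.
-/

namespace Pool.Agent.Results.MP_d4938b_nt.AlmostAllHassePrinciple

open Polynomial IsDedekindDomain

/-- The hypersurface `a_1 x_1 ^ k + ... + a_s x_s ^ k = m x_0 ^ k` has a point over the field `L`. -/
def HasPoint {F : Type*} [Field F] (k : ℕ) {s : ℕ} (a : Fin s → F[X]) (m : F[X])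
    (L : Type*) [Field L] [Algebra (RatFunc F) L] : Prop :=
  ∃ (x₀ : L) (x : Fin s → L), (x₀ ≠ 0 ∨ x ≠ 0) ∧
    ∑ i, algebraMap (RatFunc F) L (algebraMap F[X] (RatFunc F) (a i)) * x i ^ k
      = algebraMap (RatFunc F) L (algebraMap F[X] (RatFunc F) m) * x₀ ^ k

/-- The hypersurface has points over all the completions of `F(t)`. -/
def LocallySoluble {F : Type*} [Field F] [DecidableEq (RatFunc F)] (k : ℕ) {s : ℕ}
    (a : Fin s → F[X]) (m : F[X]) : Prop :=
  (∀ v : HeightOneSpectrum F[X], HasPoint k a m (v.adicCompletion (RatFunc F))) ∧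
    HasPoint k a m (RatFunc.CompletionAtInfty F)

/-- The equation `a_1 x_1 ^ k + ... + a_s x_s ^ k = m` is soluble in the integers of all the
completions of `F(t)` at the finite places, and in the completion at infinity. -/
def LocallyRepresented {F : Type*} [Field F] [DecidableEq (RatFunc F)] (k : ℕ) {s : ℕ}
    (a : Fin s → F[X]) (m : F[X]) : Prop :=
  (∀ v : HeightOneSpectrum F[X], ∃ x : Fin s → v.adicCompletion (RatFunc F),
    (∀ i, x i ∈ v.adicCompletionIntegers (RatFunc F)) ∧
    ∑ i, algebraMap (RatFunc F) (v.adicCompletion (RatFunc F))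
        (algebraMap F[X] (RatFunc F) (a i)) * x i ^ k
      = algebraMap (RatFunc F) (v.adicCompletion (RatFunc F)) (algebraMap F[X] (RatFunc F) m)) ∧
  ∃ x : Fin s → RatFunc.CompletionAtInfty F,
    ∑ i, algebraMap (RatFunc F) (RatFunc.CompletionAtInfty F)
        (algebraMap F[X] (RatFunc F) (a i)) * x i ^ k
      = algebraMap (RatFunc F) (RatFunc.CompletionAtInfty F) (algebraMap F[X] (RatFunc F) m)

/-- The equation `a_1 x_1 ^ k + ... + a_s x_s ^ k = m` is soluble in `F[t]`. -/
def Represented {F : Type*} [Field F] (k : ℕ) {s : ℕ} (a : Fin s → F[X]) (m : F[X]) : Prop :=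
  ∃ x : Fin s → F[X], ∑ i, a i * x i ^ k = m

/-- Let `k ≥ 2`, let `F` be a finite field of characteristic larger than `k` with
`q ≥ (8 k) ^ (k 2 ^ k)` elements, let `s ≥ k + 1` and let `a_1, ..., a_s` be non-zero polynomials.

(1) All but `o(q ^ (n + 1))` of the polynomials `m` of degree at most `n` have the property that the
hypersurface `X_m : a_1 x_1 ^ k + ... + a_s x_s ^ k = m x_0 ^ k` has an `F(t)`-point as soon as it
has points over all the completions of `F(t)`.

(2) All but `o(q ^ (n + 1))` of the polynomials `m` of degree at most `n` have the property that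
`a_1 x_1 ^ k + ... + a_s x_s ^ k = m` is soluble in `F[t]` as soon as it is soluble in the integers
of all the completions at the finite places and in the completion at infinity.

(3) A positive proportion of the polynomials `m` of degree at most `n` are of the form
`a_1 x_1 ^ k + ... + a_s x_s ^ k` with `x_i` in `F[t]`; for these `m` the local conditions in (1)
and (2) hold. -/
theorem result (k : ℕ) (hk : 2 ≤ k) (F : Type*) [Field F] [Fintype F] [DecidableEq (RatFunc F)]
    (hchar : k < ringChar F) (hq : (8 * k) ^ (k * 2 ^ k) ≤ Fintype.card F) (s : ℕ)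
    (hs : k + 1 ≤ s) (a : Fin s → F[X]) (ha : ∀ i, a i ≠ 0) :
    (∀ ε : ℝ, 0 < ε → ∃ N : ℕ, ∀ n, N ≤ n →
      ({m : F[X] | m.natDegree ≤ n ∧ m ≠ 0 ∧ LocallySoluble k a m ∧
        ¬ HasPoint k a m (RatFunc F)}.ncard : ℝ) ≤ ε * (Fintype.card F : ℝ) ^ (n + 1)) ∧
    (∀ ε : ℝ, 0 < ε → ∃ N : ℕ, ∀ n, N ≤ n →
      ({m : F[X] | m.natDegree ≤ n ∧ LocallyRepresented k a m ∧
        ¬ Represented k a m}.ncard : ℝ) ≤ ε * (Fintype.card F : ℝ) ^ (n + 1)) ∧
    (∃ δ : ℝ, 0 < δ ∧ ∃ N : ℕ, ∀ n, N ≤ n →
      δ * (Fintype.card F : ℝ) ^ (n + 1)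
        ≤ ({m : F[X] | m.natDegree ≤ n ∧ Represented k a m}.ncard : ℝ)) ∧
    (∀ m : F[X], Represented k a m → LocallyRepresented k a m ∧ LocallySoluble k a m) := by
  have hch : ∀ i : ℕ, 1 ≤ i → i ≤ k → ((i : ℕ) : F) ≠ 0 := by
    intro i h1 h2 h0
    have h3 : ringChar F ∣ i := (ringChar.spec F i).1 h0
    have := Nat.le_of_dvd (by omega) h3
    omega
  have hbig : Pool.Agent.H598.FQ.Big (Fintype.card F) k := Pool.Agent.H598.FQ.big_of_le hk hq
  obtain ⟨ψ, hψ⟩ : ∃ ψ : AddChar F ℂ, ψ ≠ 1 := by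
    obtain ⟨ψ, hψ⟩ := (AddChar.exists_apply_ne_zero (α := F) (a := 1)).2 one_ne_zero
    exact ⟨ψ, fun h => hψ (by rw [h]; rfl)⟩
  have hloc : ∀ (L : Type _) [Field L] [Algebra (RatFunc F) L] (m : F[X]), HasPoint k a m L →
      ∃ x : Fin (s + 1) → L, x ≠ 0 ∧ ∑ i, algebraMap (RatFunc F) L
        (algebraMap F[X] (RatFunc F) ((Fin.cons (-m) a : Fin (s + 1) → F[X]) i)) * x i ^ k
          = 0 := by
    intro L _ _ m h
    obtain ⟨x₀, x, h0, hx⟩ := h
    refine ⟨Fin.cons x₀ x, ?_, ?_⟩
    · intro h1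
      rcases h0 with h0 | h0
      · exact h0 (by have := congrFun h1 0; rwa [Fin.cons_zero] at this)
      · apply h0
        funext i
        have := congrFun h1 i.succ
        rwa [Fin.cons_succ] at this
    · have h1 := Pool.Agent.H598.CX.cons_sum ((algebraMap (RatFunc F) L).comp
        (algebraMap F[X] (RatFunc F))) (k := k) a m (Fin.cons x₀ x)
      simp only [RingHom.comp_apply, Fin.cons_zero, Fin.cons_succ] at h1
      rw [h1, hx, sub_self]
  refine ⟨?_, ?_, ?_, ?_⟩
  · intro ε hε
    obtain ⟨N, hN⟩ := Pool.Agent.H598.CX.few_gen hψ hk hch hbig hs a ha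
      (fun E => (2 * (∑ i, (a i).natDegree + E) + 1)
        * ∑ p ∈ Pool.Agent.H598.CX.TT a, p.natDegree) hε
    refine ⟨N, fun n hn => hN n hn _ ?_⟩
    intro m hm
    obtain ⟨h1, h2, h3, h4⟩ := hm
    refine ⟨h1, fun E hE => ?_⟩
    apply Pool.Agent.H598.CX.bad_rat (by omega) (hch k (by omega) le_rfl) ha h2 E hE
      (fun v => hloc _ m (h3.1 v)) (hloc _ m h3.2)
    rintro ⟨x, hx0, hx⟩
    apply h4
    refine ⟨algebraMap F[X] (RatFunc F) (x 0), fun i => algebraMap F[X] (RatFunc F) (x i.succ),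
      ?_, ?_⟩
    · by_contra hcon
      push Not at hcon
      apply hx0
      funext i
      refine Fin.cases ?_ (fun j => ?_) i
      · by_contra h5
        exact RatFunc.algebraMap_ne_zero h5 hcon.1
      · by_contra h5
        exact RatFunc.algebraMap_ne_zero h5 (congrFun hcon.2 j)
    · have h5 := Pool.Agent.H598.CX.cons_sum (RingHom.id F[X]) (k := k) a m x
      simp only [RingHom.id_apply] at h5
      rw [hx] at h5
      have h6 : ∑ i, a i * x i.succ ^ k = m * x 0 ^ k := by linear_combination -h5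
      have h7 := congrArg (algebraMap F[X] (RatFunc F)) h6
      rw [map_sum, map_mul, map_pow] at h7
      refine Eq.trans (Finset.sum_congr rfl (fun i _ => ?_)) h7
      rw [map_mul, map_pow]
      rfl
  · intro ε hε
    obtain ⟨N, hN⟩ := Pool.Agent.H598.CX.few_gen hψ hk hch hbig hs a ha (fun _ => 0) hε
    refine ⟨N, fun n hn => hN n hn _ ?_⟩
    intro m hm
    obtain ⟨h1, h3, h4⟩ := hm
    have h2 : m ≠ 0 := by
      intro h0
      apply h4
      refine ⟨0, ?_⟩
      rw [h0]
      apply Finset.sum_eq_zero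
      intro i _
      rw [Pi.zero_apply, zero_pow (by omega), mul_zero]
    refine ⟨h1, fun E hE => ?_⟩
    exact Pool.Agent.H598.CX.bad_int (by omega) (hch k (by omega) le_rfl) ha h2 E hE h3.1 h3.2 h4
  · exact Pool.Agent.H598.CX.pos_prop hψ hk hch hbig hs a ha
  · intro m hm
    obtain ⟨x, hx⟩ := hm
    have h1 : ∀ (L : Type _) [Field L] [Algebra (RatFunc F) L],
        ∑ i, algebraMap (RatFunc F) L (algebraMap F[X] (RatFunc F) (a i))
          * (algebraMap (RatFunc F) L (algebraMap F[X] (RatFunc F) (x i))) ^ k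
          = algebraMap (RatFunc F) L (algebraMap F[X] (RatFunc F) m) := by
      intro L _ _
      rw [← hx, map_sum, map_sum]
      apply Finset.sum_congr rfl
      intro i _
      rw [map_mul, map_mul, map_pow, map_pow]
    refine ⟨⟨fun v => ⟨_, fun i => ?_, h1 _⟩, ⟨_, h1 _⟩⟩, ⟨fun v => ?_, ?_⟩⟩
    · rw [HeightOneSpectrum.mem_adicCompletionIntegers F[X] (RatFunc F) v]
      change (Valued.v (algebraMap (RatFunc F) (v.adicCompletion (RatFunc F))
        (algebraMap F[X] (RatFunc F) (x i))) : WithZero (Multiplicative ℤ)) ≤ 1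
      rw [Pool.Agent.H598.WA.val_fin]
      exact Pool.Agent.H598.WA.int_le_one v (x i)
    · exact ⟨1, _, Or.inl one_ne_zero, by rw [h1, one_pow, mul_one]⟩
    · exact ⟨1, _, Or.inl one_ne_zero, by rw [h1, one_pow, mul_one]⟩

end Pool.Agent.Results.MP_d4938b_nt.AlmostAllHassePrinciple
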