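import Pool.Agent.H598.DG.Diag
import Pool.Agent.H598.DG.Aniso

/-!
# Rational points on diagonal hypersurfaces over `F(t)`

Let `F` be a finite field and `K = F(t)`. The hypersurface `a_1 x_1 ^ k + ... + a_s x_s ^ k = 0`
in the projective space of dimension `s - 1` over `K` is smooth if all the `a_i` are non-zero and
the characteristic does not divide `k`. A `K`-rational point is a non-zero tuple of elements
of `K` satisfying the equation.
-/

namespace Pool.Agent.Results.MP_d4938b_nt.DiagonalFunctionField

/-- Let `k ≥ 2` and let `F` be a finite field of characteristic larger than `k` with at least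
`(8k) ^ (k 2 ^ k)` elements.

(a) Every diagonal form of degree `k` in `s ≥ 2k + 1` variables over the field `F(t)` of rational
functions has a non-trivial zero. In other words every diagonal hypersurface of degree `k` in the
projective space of dimension `s - 1 ≥ 2k` over `F(t)` has a rational point.

(b) The number `2k + 1` is best possible if `F` contains an element which is not a `k`-th power:
then some diagonal form in `2k` variables with non-zero coefficients has only the trivial zero. -/
theorem result (k : ℕ) (hk : 2 ≤ k) (F : Type*) [Field F] [Fintype F]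
    (hchar : k < ringChar F) (hq : (8 * k) ^ (k * 2 ^ k) ≤ Fintype.card F) :
    (∀ s : ℕ, 2 * k + 1 ≤ s → ∀ a : Fin s → RatFunc F,
      ∃ x : Fin s → RatFunc F, x ≠ 0 ∧ ∑ i, a i * x i ^ k = 0) ∧
    ((∃ u : F, ∀ c : F, c ^ k ≠ u) → ∃ a : Fin (2 * k) → RatFunc F, (∀ i, a i ≠ 0) ∧
      ∀ x : Fin (2 * k) → RatFunc F, ∑ i, a i * x i ^ k = 0 → x = 0) := by
  have hch : ∀ i : ℕ, 1 ≤ i → i ≤ k → ((i : ℕ) : F) ≠ 0 := by
    intro i hi hik h0
    have h1 : ringChar F ∣ i := ringChar.dvd h0
    have h2 := Nat.le_of_dvd (by omega) h1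
    omega
  refine ⟨?_, ?_⟩
  · intro s hs a
    exact Pool.Agent.H598.DG.diag_ratFunc hk hch (Pool.Agent.H598.FQ.big_of_le hk hq) hs a
  · rintro ⟨u, hu⟩
    have hu0 : u ≠ 0 := by
      rintro rfl
      exact hu 0 (zero_pow (by omega))
    exact ⟨Pool.Agent.H598.DG.anc F k u, Pool.Agent.H598.DG.anc_ne hu0,
      fun x hx => Pool.Agent.H598.DG.aniso (by omega) hu x hx⟩

end Pool.Agent.Results.MP_d4938b_nt.DiagonalFunctionField
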